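import Pool.Agent.Lib.MP_acafa7_al.MS.Iface1

/-!
# Module Cone: coning off short closed walks in links (Paper 1.3)
-/

set_option linter.all false

namespace MSG.H30

open MSG

open Classical

theorem rmap_cons {α : Type*} (n : ℕ) (f : ℕ → α) :
    (List.range (n + 1)).map f = f 0 :: (List.range n).map (fun j => f (j + 1)) := by
  rw [List.range_succ_eq_map, List.map_cons, List.map_map]
  rfl

theorem rmap_snoc {α : Type*} (n : ℕ) (f : ℕ → α) :
    (List.range (n + 1)).map f = (List.range n).map f ++ [f n] := by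
  rw [List.range_succ, List.map_append]
  rfl

theorem rmap_congr {α : Type*} (n : ℕ) (f g : ℕ → α) (h : ∀ j, j < n → f j = g j) :
    (List.range n).map f = (List.range n).map g :=
  List.map_congr_left fun j hj => h j (List.mem_range.1 hj)

theorem sum_shift1 {α : Type*} [AddCommGroup α] (F : ℕ → α) (k : ℕ) (hF : F k = F 0) :
    ∑ i ∈ Finset.range k, F (i + 1) = ∑ i ∈ Finset.range k, F i := by
  have h1 := Finset.sum_range_succ F k
  have h2 := Finset.sum_range_succ' F k
  rw [h1, hF] at h2
  exact (add_right_cancel h2).symm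

theorem sum_shift {α : Type*} [AddCommGroup α] (F : ℕ → α) (k : ℕ) (hF : ∀ i, F (i + k) = F i) :
    ∀ m : ℕ, ∑ i ∈ Finset.range k, F (i + m) = ∑ i ∈ Finset.range k, F i := by
  intro m
  induction m with
  | zero => rfl
  | succ m ih =>
    rw [← ih]
    have := sum_shift1 (fun i => F (i + m)) k (by
      show F (k + m) = F (0 + m)
      rw [Nat.add_comm k m, hF, Nat.zero_add])
    rw [← this]
    refine Finset.sum_congr rfl fun i _ => ?_
    show F (i + (m + 1)) = F (i + 1 + m)
    congr 1
    omega

section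

variable {V : Type} {G : SimpleGraph V} {Y : Set V} {ω : V → V → V → ZMod 2}

theorem nulP_rot1 {u : ℕ → V} {k : ℕ} (hk : 2 ≤ k) (hper : ∀ i, u (i + k) = u i) {e : ZMod 2}
    {n : ℕ} (h : NulP G Y ω ((List.range (k + 1)).map (fun j => u (j + 1))) e n) :
    NulP G Y ω ((List.range (k + 1)).map u) e n := by
  obtain ⟨m, rfl⟩ : ∃ m, k = m + 2 := ⟨k - 2, by omega⟩
  have e1 : (List.range (m + 2 + 1)).map u =
      u 0 :: u 1 :: (List.range (m + 1)).map (fun j => u (j + 1 + 1)) := by
    rw [rmap_cons, rmap_cons]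
  have e2 : (List.range (m + 2 + 1)).map (fun j => u (j + 1)) =
      u 1 :: ((List.range (m + 1)).map (fun j => u (j + 1 + 1)) ++ [u 1]) := by
    rw [rmap_cons, rmap_snoc]
    have : u (m + 1 + 1 + 1) = u 1 := by
      rw [← hper 1]
      congr 1
      omega
    rw [this]
  have e3 : ((List.range (m + 2 + 1)).map u).getLast? = some (u 0) := by
    rw [rmap_snoc, List.getLast?_append]
    have : u (m + 2) = u 0 := by
      rw [← hper 0]
      congr 1
      omega
    simp [this]
  rw [e1] at e3 ⊢
  rw [e2] at h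
  exact NulP.rot _ _ _ _ _ e3 h

theorem nulP_rot {u : ℕ → V} {k : ℕ} (hk : 2 ≤ k) (hper : ∀ i, u (i + k) = u i) {e : ZMod 2}
    {n : ℕ} : ∀ i : ℕ, NulP G Y ω ((List.range (k + 1)).map (fun j => u (j + i))) e n →
    NulP G Y ω ((List.range (k + 1)).map u) e n := by
  intro i
  induction i with
  | zero => exact fun h => h
  | succ i ih =>
    intro h
    refine ih (nulP_rot1 (u := fun j => u (j + i)) hk (fun j => ?_) ?_)
    · show u (j + k + i) = u (j + i)
      rw [← hper (j + i)]
      congr 1
      omega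
    · have : (fun j => u (j + (i + 1))) = fun j => (fun j => u (j + i)) (j + 1) := by
        funext j
        show u (j + (i + 1)) = u (j + 1 + i)
        congr 1
        omega
      rw [← this]
      exact h

end

theorem sum_four {α : Type*} [AddCommMonoid α] (F : ℕ → α) (m : ℕ) :
    ∑ j ∈ Finset.range (m + 4), F j = ∑ j ∈ Finset.range (m + 2), F (j + 2) + F 1 + F 0 := by
  rw [show m + 4 = m + 2 + 1 + 1 by omega, Finset.sum_range_succ', Finset.sum_range_succ']

theorem sum_three {α : Type*} [AddCommMonoid α] (F : ℕ → α) (m : ℕ) :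
    ∑ j ∈ Finset.range (m + 3), F j = ∑ j ∈ Finset.range (m + 2), F (j + 1) + F 0 := by
  rw [show m + 3 = m + 2 + 1 by omega, Finset.sum_range_succ']

theorem ang_nonneg (a b c : ℝ) : 0 ≤ ang a b c := Real.arccos_nonneg _

/-- The statement for closed walks given by finitely many values. -/
theorem cone_fin (hB : LinkBStatement) (V : Type) (X : Cx V) (hM : X.IsMetric) (hL : X.Large)
    (Y : Set V) (ω : V → V → V → ZMod 2) (hω : Cocyc X.G Y ω) (x : V) (hx : x ∈ Y) :
    ∀ (k : ℕ) (v : ℕ → V), 2 ≤ k → (∀ i, i ≤ k → v i ∈ Y) → v k = v 0 →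
      (∀ i, i ≤ k → X.G.Adj x (v i)) → (∀ i, i < k → X.G.Adj (v i) (v (i + 1))) →
      ∑ i ∈ Finset.range k, X.A x (v i) (v (i + 1)) < 2 * Real.pi →
      ∃ n, n + 2 ≤ k ∧ NulP X.G Y ω ((List.range (k + 1)).map v)
        (∑ i ∈ Finset.range k, ω x (v i) (v (i + 1))) n := by
  intro k
  induction k using Nat.strong_induction_on with
  | _ k ih =>
  intro v hk hY hcl hadj hstep hsum
  have h2 : ∀ t : ZMod 2, t + t = 0 := fun t => CharTwo.add_self_eq_zero t
  -- the cocycle condition for four vertices
  have hcoc : ∀ a b c, a ∈ Y → b ∈ Y → c ∈ Y → X.G.Adj x a → X.G.Adj x b → X.G.Adj x c →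
      X.G.Adj a b → X.G.Adj b c → X.G.Adj a c →
      ω x a b + ω x b c = ω a b c + ω x a c := by
    intro a b c ha hb hc h1 h2' h3 h4 h5 h6
    have := hω.coc x a b c hx ha hb hc h1 h2' h3 h4 h6 h5
    have e : ω x a b + ω x b c + (ω a b c + ω x a c) = 0 := by rw [← this]; ring
    calc ω x a b + ω x b c = ω x a b + ω x b c + (ω a b c + ω x a c) + (ω a b c + ω x a c) := by
          rw [add_assoc (ω x a b + ω x b c), h2, add_zero]
      _ = _ := by rw [e, zero_add]
  rcases Nat.lt_or_ge k 4 with hk4 | hk4
  · have hk23 : k = 2 ∨ k = 3 := by omega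
    rcases hk23 with rfl | rfl
    · refine ⟨0, le_refl _, ?_⟩
      have e1 : (List.range (2 + 1)).map v = [v 0, v 1, v 0] := by
        have : (List.range (2 + 1)).map v = [v 0, v 1, v 2] := rfl
        rw [this, hcl]
      have e2 : ∑ i ∈ Finset.range 2, ω x (v i) (v (i + 1)) = 0 := by
        rw [Finset.sum_range_succ, Finset.sum_range_one]
        show ω x (v 0) (v 1) + ω x (v 1) (v 2) = 0
        rw [hcl, hω.s23 x (v 0) (v 1)]
        exact h2 _
      rw [e1, e2]
      exact NulP.base _ _ (hstep 0 (by norm_num))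
    · refine ⟨1, le_refl _, ?_⟩
      have e1 : (List.range (3 + 1)).map v = [] ++ v 0 :: v 1 :: v 2 :: [v 0] := by
        have : (List.range (3 + 1)).map v = [v 0, v 1, v 2, v 3] := rfl
        rw [this, hcl]
        rfl
      have a01 : X.G.Adj (v 0) (v 1) := hstep 0 (by norm_num)
      have a12 : X.G.Adj (v 1) (v 2) := hstep 1 (by norm_num)
      have a20 : X.G.Adj (v 2) (v 0) := by
        have := hstep 2 (by norm_num)
        rwa [show v (2 + 1) = v 0 from hcl] at this
      have e2 : ∑ i ∈ Finset.range 3, ω x (v i) (v (i + 1)) = ω (v 0) (v 1) (v 2) + 0 := by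
        rw [Finset.sum_range_succ, Finset.sum_range_succ, Finset.sum_range_one]
        show ω x (v 0) (v 1) + ω x (v 1) (v 2) + ω x (v 2) (v 3) = _
        rw [hcl, hcoc (v 0) (v 1) (v 2) (hY 0 (by norm_num)) (hY 1 (by norm_num))
          (hY 2 (by norm_num)) (hadj 0 (by norm_num)) (hadj 1 (by norm_num))
          (hadj 2 (by norm_num)) a01 a12 a20.symm, hω.s23 x (v 0) (v 2), add_assoc, h2]
      rw [e1, e2]
      have := NulP.stp (G := X.G) (Y := Y) (ω := ω) ([] ++ v 0 :: v 1 :: v 2 :: [v 0])
        ([] ++ v 0 :: v 2 :: [v 0]) (ω (v 0) (v 1) (v 2)) 0 0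
        (Stp.con [] [v 0] (v 0) (v 1) (v 2) a01 a12 a20.symm) (by simp)
        (NulP.base _ _ a20.symm)
      have e3 : 0 + nTri ([] ++ v 0 :: v 1 :: v 2 :: [v 0]) ([] ++ v 0 :: v 2 :: [v 0]) = 1 := by
        simp [nTri]
      rw [e3] at this
      exact this
  · -- periodize
    have hk0 : 0 < k := by omega
    let u : ℕ → V := fun j => v (j % k)
    have hu : ∀ j, j ≤ k → u j = v j := by
      intro j hj
      rcases Nat.lt_or_ge j k with h | h
      · show v (j % k) = v j
        rw [Nat.mod_eq_of_lt h]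
      · have : j = k := by omega
        subst this
        show v (j % j) = v j
        rw [Nat.mod_self, hcl]
    have hper : ∀ i, u (i + k) = u i := by
      intro i
      show v ((i + k) % k) = v (i % k)
      rw [Nat.add_mod_right]
    have hmod : ∀ i, u i = v (i % k) ∧ u (i + 1) = v (i % k + 1) ∧ i % k < k := by
      intro i
      have hlt := Nat.mod_lt i hk0
      refine ⟨rfl, ?_, hlt⟩
      show v ((i + 1) % k) = v (i % k + 1)
      rcases Nat.lt_or_ge (i % k + 1) k with h | h
      · have : (i + 1) % k = i % k + 1 := by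
          rw [Nat.add_mod, Nat.mod_eq_of_lt (show 1 < k by omega), Nat.mod_eq_of_lt h]
        rw [this]
      · have h1 : i % k + 1 = k := by omega
        have : (i + 1) % k = 0 := by
          rw [Nat.add_mod, Nat.mod_eq_of_lt (show 1 < k by omega), h1, Nat.mod_self]
        rw [this, h1, hcl]
    have huY : ∀ i, u i ∈ Y := fun i => hY _ (hmod i).2.2.le
    have huadj : ∀ i, X.G.Adj x (u i) := fun i => hadj _ (hmod i).2.2.le
    have hustep : ∀ i, X.G.Adj (u i) (u (i + 1)) := by
      intro i
      rw [(hmod i).1, (hmod i).2.1]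
      exact hstep _ (hmod i).2.2
    have husum : ∑ i ∈ Finset.range k, X.A x (u i) (u (i + 1)) =
        ∑ i ∈ Finset.range k, X.A x (v i) (v (i + 1)) := by
      refine Finset.sum_congr rfl fun i hi => ?_
      rw [Finset.mem_range] at hi
      rw [hu i hi.le, hu (i + 1) hi]
    have huω : ∑ i ∈ Finset.range k, ω x (u i) (u (i + 1)) =
        ∑ i ∈ Finset.range k, ω x (v i) (v (i + 1)) := by
      refine Finset.sum_congr rfl fun i hi => ?_
      rw [Finset.mem_range] at hi
      rw [hu i hi.le, hu (i + 1) hi]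
    obtain ⟨i, hi⟩ := hB V X hM hL x k u hk4 hper huadj hustep (by rw [husum]; exact hsum)
    -- rotate
    let w : ℕ → V := fun j => u (j + i)
    have hwper : ∀ j, w (j + k) = w j := by
      intro j
      show u (j + k + i) = u (j + i)
      rw [← hper (j + i)]
      congr 1
      omega
    have hwY : ∀ j, w j ∈ Y := fun j => huY _
    have hwadj : ∀ j, X.G.Adj x (w j) := fun j => huadj _
    have hwstep : ∀ j, X.G.Adj (w j) (w (j + 1)) := by
      intro j
      have := hustep (j + i)
      rw [show j + i + 1 = j + 1 + i by omega] at this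
      exact this
    have hwsum : ∑ j ∈ Finset.range k, X.A x (w j) (w (j + 1)) < 2 * Real.pi := by
      have := sum_shift (fun j => X.A x (u j) (u (j + 1))) k (fun j => by
        show X.A x (u (j + k)) (u (j + k + 1)) = X.A x (u j) (u (j + 1))
        rw [hper, show j + k + 1 = j + 1 + k by omega, hper]) i
      rw [← husum, ← this] at hsum
      refine lt_of_eq_of_lt (Finset.sum_congr rfl fun j _ => ?_) hsum
      show X.A x (u (j + i)) (u (j + 1 + i)) = X.A x (u (j + i)) (u (j + i + 1))
      rw [show j + i + 1 = j + 1 + i by omega]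
    have hwω : ∑ j ∈ Finset.range k, ω x (w j) (w (j + 1)) =
        ∑ i ∈ Finset.range k, ω x (v i) (v (i + 1)) := by
      have := sum_shift (fun j => ω x (u j) (u (j + 1))) k (fun j => by
        show ω x (u (j + k)) (u (j + k + 1)) = ω x (u j) (u (j + 1))
        rw [hper, show j + k + 1 = j + 1 + k by omega, hper]) i
      rw [← huω, ← this]
      refine Finset.sum_congr rfl fun j _ => ?_
      show ω x (u (j + i)) (u (j + 1 + i)) = ω x (u (j + i)) (u (j + i + 1))
      rw [show j + i + 1 = j + 1 + i by omega]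
    have hwi : w 0 = w 2 ∨ X.G.Adj (w 0) (w 2) := by
      have e0 : w 0 = u i := by
        show u (0 + i) = u i
        rw [Nat.zero_add]
      have e2 : w 2 = u (i + 2) := by
        show u (2 + i) = u (i + 2)
        rw [Nat.add_comm]
      rw [e0, e2]
      exact hi
    -- it is enough to fill `w`
    have hfin : ∀ n, NulP X.G Y ω ((List.range (k + 1)).map w)
        (∑ j ∈ Finset.range k, ω x (w j) (w (j + 1))) n →
        NulP X.G Y ω ((List.range (k + 1)).map v)
          (∑ i ∈ Finset.range k, ω x (v i) (v (i + 1))) n := by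
      intro n hn
      rw [hwω] at hn
      have h3 := nulP_rot (u := u) (by omega) hper i hn
      rw [rmap_congr (k + 1) v u (fun j hj => (hu j (by omega)).symm)]
      exact h3
    obtain ⟨m, rfl⟩ : ∃ m, k = m + 4 := ⟨k - 4, by omega⟩
    have hlist : (List.range (m + 4 + 1)).map w =
        [] ++ w 0 :: w 1 :: w 2 :: (List.range (m + 2)).map (fun j => w (j + 1 + 1 + 1)) := by
      rw [rmap_cons, rmap_cons, rmap_cons]
      rfl
    have hcl' : w (m + 4) = w 0 := by
      have := hwper 0
      rwa [Nat.zero_add] at this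
    rcases hwi with hwi | hwi
    · -- a backtrack
      obtain ⟨n, hn, hN⟩ := ih (m + 2) (by omega) (fun j => w (j + 2)) (by omega)
        (fun j _ => hwY _) (by
          show w (m + 2 + 2) = w (0 + 2)
          rw [show m + 2 + 2 = m + 4 by omega, hcl', hwi]) (fun j _ => hwadj _)
        (fun j _ => by
          have := hwstep (j + 2)
          rwa [show j + 2 + 1 = j + 1 + 2 by omega] at this) (by
          refine lt_of_le_of_lt ?_ hwsum
          rw [sum_four (fun j => X.A x (w j) (w (j + 1)))]
          have h3 : ∑ j ∈ Finset.range (m + 2), X.A x (w (j + 2)) (w (j + 1 + 2)) =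
              ∑ j ∈ Finset.range (m + 2), X.A x (w (j + 2)) (w (j + 2 + 1)) :=
            Finset.sum_congr rfl fun j _ => by
              rw [show j + 1 + 2 = j + 2 + 1 by omega]
          rw [h3]
          have h4 : 0 ≤ X.A x (w 1) (w (1 + 1)) := ang_nonneg _ _ _
          have h5 : 0 ≤ X.A x (w 0) (w (0 + 1)) := ang_nonneg _ _ _
          linarith)
      refine ⟨n, by omega, hfin n ?_⟩
      have e1 : (List.range (m + 2 + 1)).map (fun j => w (j + 2)) =
          [] ++ w 0 :: (List.range (m + 2)).map (fun j => w (j + 1 + 1 + 1)) := by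
        rw [rmap_cons]
        show w (0 + 2) :: _ = w 0 :: _
        rw [show 0 + 2 = 2 by omega, ← hwi]
      have e2 : ∑ j ∈ Finset.range (m + 4), ω x (w j) (w (j + 1)) =
          0 + ∑ j ∈ Finset.range (m + 2), ω x (w (j + 2)) (w (j + 1 + 2)) := by
        rw [show m + 4 = m + 2 + 1 + 1 by omega, Finset.sum_range_succ', Finset.sum_range_succ']
        have h3 : ∑ j ∈ Finset.range (m + 2), ω x (w (j + 2)) (w (j + 1 + 2)) =
            ∑ j ∈ Finset.range (m + 2), ω x (w (j + 1 + 1)) (w (j + 1 + 1 + 1)) :=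
          Finset.sum_congr rfl fun j _ => by
            rw [show j + 1 + 2 = j + 1 + 1 + 1 by omega]
        rw [h3]
        have h4 : ω x (w (0 + 1)) (w (0 + 1 + 1)) = ω x (w 0) (w 1) := by
          show ω x (w 1) (w 2) = ω x (w 0) (w 1)
          rw [← hwi, hω.s23]
        rw [h4]
        show _ + ω x (w 0) (w 1) + ω x (w 0) (w 1) = _
        rw [add_assoc, h2, add_zero, zero_add]
      rw [hlist, e2]
      rw [e1] at hN
      have h6 := NulP.stp (G := X.G) (Y := Y) (ω := ω)
        ([] ++ w 0 :: w 1 :: w 2 :: (List.range (m + 2)).map (fun j => w (j + 1 + 1 + 1)))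
        ([] ++ w 0 :: (List.range (m + 2)).map (fun j => w (j + 1 + 1 + 1))) 0 _ n
        (by
          rw [← hwi]
          exact Stp.del [] _ (w 0) (w 1) (hwstep 0)) (by simp) hN
      have e3 : n + nTri ([] ++ w 0 :: w 1 :: w 2 :: (List.range (m + 2)).map
          (fun j => w (j + 1 + 1 + 1)))
          ([] ++ w 0 :: (List.range (m + 2)).map (fun j => w (j + 1 + 1 + 1))) = n := by
        simp [nTri]
      rw [e3] at h6
      exact h6
    · -- a contraction
      let z : ℕ → V := fun j => if j = 0 then w 0 else w (j + 1)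
      have z0 : z 0 = w 0 := rfl
      have zs : ∀ j, z (j + 1) = w (j + 1 + 1) := fun j => by
        show (if j + 1 = 0 then w 0 else w (j + 1 + 1)) = _
        rw [if_neg (by omega)]
      obtain ⟨n, hn, hN⟩ := ih (m + 3) (by omega) z (by omega)
        (fun j _ => by
          cases j with
          | zero => exact hwY 0
          | succ j => rw [zs]; exact hwY _) (by
          rw [show m + 3 = m + 2 + 1 by omega, zs, z0]
          exact hcl') (fun j _ => by
          cases j with
          | zero => exact hwadj 0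
          | succ j => rw [zs]; exact hwadj _)
        (fun j _ => by
          cases j with
          | zero => rw [zs, z0]; exact hwi
          | succ j => rw [zs, zs]; exact hwstep _) (by
          refine lt_of_le_of_lt ?_ hwsum
          rw [sum_four (fun j => X.A x (w j) (w (j + 1))),
            sum_three (fun j => X.A x (z j) (z (j + 1)))]
          have h3 : ∑ j ∈ Finset.range (m + 2), X.A x (z (j + 1)) (z (j + 1 + 1)) =
              ∑ j ∈ Finset.range (m + 2), X.A x (w (j + 2)) (w (j + 2 + 1)) :=
            Finset.sum_congr rfl fun j _ => by rw [zs, zs]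
          rw [h3, z0, zs]
          have h4 := hM.angle x (w 0) (w 1) (w 2) (hwadj 0) (hwadj 1) (hwadj 2) (hwstep 0)
            (hwstep 1) hwi
          show _ + X.A x (w 0) (w 2) ≤ _ + X.A x (w 1) (w 2) + X.A x (w 0) (w 1)
          linarith)
      refine ⟨n + 1, by omega, hfin (n + 1) ?_⟩
      have e1 : (List.range (m + 3 + 1)).map z =
          [] ++ w 0 :: w 2 :: (List.range (m + 2)).map (fun j => w (j + 1 + 1 + 1)) := by
        rw [rmap_cons, rmap_cons, z0]
        show w 0 :: z (0 + 1) :: _ = w 0 :: w 2 :: _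
        rw [zs]
        refine congrArg _ (congrArg _ (rmap_congr _ _ _ fun j _ => ?_))
        exact zs _
      have e2 : ∑ j ∈ Finset.range (m + 4), ω x (w j) (w (j + 1)) =
          ω (w 0) (w 1) (w 2) + ∑ j ∈ Finset.range (m + 3), ω x (z j) (z (j + 1)) := by
        rw [show m + 3 = m + 2 + 1 by omega, Finset.sum_range_succ' _ (m + 2),
            show m + 4 = m + 2 + 1 + 1 by omega, Finset.sum_range_succ', Finset.sum_range_succ']
        have h3 : ∑ j ∈ Finset.range (m + 2), ω x (z (j + 1)) (z (j + 1 + 1)) =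
            ∑ j ∈ Finset.range (m + 2), ω x (w (j + 1 + 1)) (w (j + 1 + 1 + 1)) :=
          Finset.sum_congr rfl fun j _ => by rw [zs, zs]
        rw [h3, z0, zs]
        show _ + ω x (w 1) (w 2) + ω x (w 0) (w 1) = _ + (_ + ω x (w 0) (w 2))
        have h4 := hcoc (w 0) (w 1) (w 2) (hwY 0) (hwY 1) (hwY 2) (hwadj 0) (hwadj 1) (hwadj 2)
          (hwstep 0) (hwstep 1) hwi
        rw [add_assoc, add_comm (ω x (w 1) (w 2)), h4]
        ring
      rw [hlist, e2]
      rw [e1] at hN
      have h6 := NulP.stp (G := X.G) (Y := Y) (ω := ω)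
        ([] ++ w 0 :: w 1 :: w 2 :: (List.range (m + 2)).map (fun j => w (j + 1 + 1 + 1)))
        ([] ++ w 0 :: w 2 :: (List.range (m + 2)).map (fun j => w (j + 1 + 1 + 1)))
        (ω (w 0) (w 1) (w 2)) _ n
        (Stp.con [] _ (w 0) (w 1) (w 2) (hwstep 0) (hwstep 1) hwi) (by simp) hN
      have e3 : n + nTri ([] ++ w 0 :: w 1 :: w 2 :: (List.range (m + 2)).map
          (fun j => w (j + 1 + 1 + 1)))
          ([] ++ w 0 :: w 2 :: (List.range (m + 2)).map (fun j => w (j + 1 + 1 + 1))) = n + 1 := by
        simp [nTri]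
      rw [e3] at h6
      exact h6

theorem cone (hB : LinkBStatement) : ConeStatement := by
  intro V X hM hL Y ω hω x k u hx hk hY hper hadj hstep hsum
  refine cone_fin hB V X hM hL Y ω hω x hx k u hk (fun i _ => hY i) ?_ (fun i _ => hadj i)
    (fun i _ => hstep i) hsum
  have := hper 0
  rwa [Nat.zero_add] at this

end MSG.H30
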